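import Pool.Agent.T6.H85.SetPart.Limit

set_option autoImplicit false

/-!
# Maximal growth exponent for set partition avoidance

Among all set partitions `τ` of `[k]`, `k ≥ 3`, for which `L(τ)` exists, the exponent `L(τ)` is at
most `1 - 1 / (k - 1)`, and only the one-block partition can attain this value.

Set partitions of `[n]` are equivalence relations on `Fin n`. Idea of the proof for `τ` with at
least two blocks: cut `[n]` into `m` intervals, `m` about `n ^ (1 / (k - 1))`. If `k` blocks of a
partition `σ` all meet the same `k - 1` intervals, then `σ` contains `τ` (two consecutive elements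
of `τ` which lie in different blocks can be placed in the same interval). So all but few blocks of
a `τ`-avoiding partition meet at most `k - 2` intervals. This bounds the number of ways to link
the pieces of the blocks, and the pieces inside an interval again form a `τ`-avoiding partition.
-/

namespace Pool.Agent.Results.MP_dec6e8_co.MaximalExponent

open Filter Topology

/-- The set partition `σ` of `[n]` contains the set partition `τ` of `[k]`: there is a strictly
increasing map `f : [k] → [n]` such that `f x` and `f y` lie in the same block of `σ` if and only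
if `x` and `y` lie in the same block of `τ`. -/
def Contains {n k : ℕ} (σ : Setoid (Fin n)) (τ : Setoid (Fin k)) : Prop :=
  ∃ f : Fin k → Fin n, StrictMono f ∧ ∀ x y, σ.r (f x) (f y) ↔ τ.r x y

/-- `A_n(τ)`: the number of set partitions of `[n]` which avoid `τ`. -/
noncomputable def avoidCount {k : ℕ} (τ : Setoid (Fin k)) (n : ℕ) : ℕ :=
  Nat.card {σ : Setoid (Fin n) // ¬ Contains σ τ}

/-- **Full answer to Q1 (affirmative).** Let `k ≥ 3`, let `τ` be a set partition of `[k]` and
suppose that `L = lim log A_n(τ) / (n log n)` exists. Then `L ≤ 1 - 1 / (k - 1)`, and equality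
holds only if `τ` has just one block. -/
theorem result : ∀ k : ℕ, 3 ≤ k → ∀ (τ : Setoid (Fin k)) (L : ℝ),
    Tendsto (fun n : ℕ => Real.log (avoidCount τ n) / (n * Real.log n)) atTop (𝓝 L) →
      L ≤ 1 - 1 / ((k : ℝ) - 1) ∧ (L = 1 - 1 / ((k : ℝ) - 1) → ∀ x y : Fin k, τ.r x y) := by
  intro k hk τ L hL
  have hL' : Tendsto (Pool.Agent.T6.H85.SetPart.F τ) atTop (𝓝 L) := hL
  have hk3 : (3 : ℝ) ≤ k := by exact_mod_cast hk
  by_cases hτ : τ = ⊤
  · subst hτ
    exact ⟨Pool.Agent.T6.H85.SetPart.top_bound hk L hL', fun _ _ _ => trivial⟩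
  · have h := Pool.Agent.T6.H85.SetPart.strong_bound hk τ hτ L hL'
    have hD : 0 < (k : ℝ) ^ 2 - 3 * k + 1 := by nlinarith
    have hlt : ((k : ℝ) - 1) * ((k : ℝ) - 3) / ((k : ℝ) ^ 2 - 3 * k + 1) <
        1 - 1 / ((k : ℝ) - 1) := by
      have e : 1 - 1 / ((k : ℝ) - 1) = ((k : ℝ) - 2) / ((k : ℝ) - 1) := by
        have : (k : ℝ) - 1 ≠ 0 := by linarith
        field_simp
        ring
      rw [e, div_lt_div_iff₀ hD (by linarith)]
      nlinarith
    exact ⟨by linarith, fun he => absurd he (by linarith)⟩

end Pool.Agent.Results.MP_dec6e8_co.MaximalExponent
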